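import Pool.Agent.Lib.MP_0af767_co.HalfBlock

/-!
# MP_0af767_co: linear (2,q,q)-AONTs over fields of non-prime order have no large blocks of Cauchy type

`F` is a field with `q > 4` elements, `q` not a prime, `M` is a linear (2,q,q)-AONT and `k` is prime to `q - 1`. If the matrix
`(M_ij ^ k)` without the rows in `B` and the columns in `C` has rank at most two, then `q < 2 (|B| + |C|)`, unless both
`|B| + |C|^2` and `|B|^2 + |C|` are at least `q - 1`. The main example is `k = q - 2`: a block `a_i b_j / (x_i z_j + y_i w_j)` of
Cauchy type.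
-/

set_option autoImplicit false

namespace Pool.Agent.Results.MP_0af767_co.CauchyBlock

open Matrix Pool.MP_0af767_co

theorem result {F : Type*} [Field F] [Fintype F] (hF : ¬ (Fintype.card F).Prime) (hq : 4 < Fintype.card F)
    {ι : Type*} [Fintype ι] [DecidableEq ι] (hι : Fintype.card ι = Fintype.card F)
    (M : Matrix ι ι F) (hM : IsAONT M) (k : ℕ) (hk : k.Coprime (Fintype.card F - 1))
    (B C : Finset ι) (x y z w : ι → F) (hB : ∀ i ∉ B, ∀ j ∉ C, M i j ^ k = x i * z j + y i * w j) :
    Fintype.card F < 2 * (B.card + C.card) ∨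
      (Fintype.card F ≤ B.card + C.card ^ 2 + 1 ∧ Fintype.card F ≤ B.card ^ 2 + C.card + 1) := by
  by_cases h : Fintype.card F < 2 * (B.card + C.card)
  · exact Or.inl h
  refine Or.inr ⟨?_, ?_⟩
  · by_contra h1
    exact h (Half.half_block hF hq hι hM hk B C x y z w hB (by omega))
  · by_contra h1
    have hMt : IsAONT Mᵀ := by
      refine ⟨?_, hM.2.transpose⟩
      rw [det_transpose]
      exact hM.1
    have h2 := Half.half_block hF hq hι hMt hk C B z w x y (by
      intro j hj i hi
      rw [transpose_apply, hB i hi j hj]
      ring) (by omega)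
    omega

end Pool.Agent.Results.MP_0af767_co.CauchyBlock
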