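import Pool.Agent.Lib.MP_0af767_co.CohMain3

/-!
# MP_0af767_co: no large set of rows of a linear (2,q,q)-AONT extends by one column

Let `F` be a field with `q` elements, `q` not a prime, and `M` a linear (2,q,q)-AONT over `F`. If
`q - d` rows of `M` can be extended by one further column such that all `2 × 2` submatrices of the
`(q - d) × (q + 1)` matrix are invertible, then `q ≤ max (d²) (4 d + 2)`. In other words, for
`q > 9`: at least `q ^ (1/2)` rows of a linear (2,q,q)-AONT have to be deleted before a column can
be added.

Proof: the `q²` multiples of the `q + 1` columns form a net of order `q` with `q - d` parallel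
classes. The `d` other rows `x` of `M` give cliques of size `q - 1` in the graph of the pairs of
points on no common line. By Wilson's theorem the `q - d` columns with a zero in the given rows
extend by a row, too (`colco`), which gives `q - 1` further cliques of size `q - d`. Let the set of
rows be maximal. Counting the common neighbours of the points of these columns and a point of the
new column shows for `d ≥ 2`, `q > d²` and `q > 4 d + 2` that two points of the new column complete
the same clique, which is impossible. For `d ≤ 1` all rows are completed (`Net.complete`) and the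
completed matrix contradicts the rank bound of `ExtensionBarrier`.
-/

set_option autoImplicit false

namespace Pool.Agent.Results.MP_0af767_co.CoherentRows

open Matrix Pool.MP_0af767_co

theorem result {F : Type*} [Field F] [Fintype F] (hF : ¬ (Fintype.card F).Prime)
    {ι : Type*} [Fintype ι] [DecidableEq ι] (hι : Fintype.card ι = Fintype.card F)
    (M : Matrix ι ι F) (hM : IsAONT M) (K : Finset ι) (v : K → F)
    (hX : TwoReg (Matrix.of fun (a : K) (j : Option ι) => j.elim (v a) (M a)))
    (d : ℕ) (hd : K.card + d = Fintype.card F) :
    Fintype.card F ≤ max (d ^ 2) (4 * d + 2) := by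
  classical
  by_contra hlt
  push Not at hlt
  refine main3 hF hM hι d K (fun a => if h : a ∈ K then v ⟨a, h⟩ else 0) hd
    (lt_of_le_of_lt (le_max_left _ _) hlt) (lt_of_le_of_lt (le_max_right _ _) hlt) ?_
  intro a ha b hb hab j h
  have h' : M a j * v ⟨b, hb⟩ = M b j * v ⟨a, ha⟩ := by
    simpa only [dif_pos ha, dif_pos hb] using h
  refine hX ⟨a, ha⟩ ⟨b, hb⟩ (fun e => hab (congrArg Subtype.val e)) (some j) none (by simp) ?_
  simp only [of_apply, Option.elim_some, Option.elim_none]
  linear_combination h'

/-- the same with rows and columns exchanged -/
theorem result_transpose {F : Type*} [Field F] [Fintype F] (hF : ¬ (Fintype.card F).Prime)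
    {ι : Type*} [Fintype ι] [DecidableEq ι] (hι : Fintype.card ι = Fintype.card F)
    (M : Matrix ι ι F) (hM : IsAONT M) (K : Finset ι) (v : K → F)
    (hX : TwoReg (Matrix.of fun (i : Option ι) (a : K) => i.elim (v a) (fun i => M i a)))
    (d : ℕ) (hd : K.card + d = Fintype.card F) :
    Fintype.card F ≤ max (d ^ 2) (4 * d + 2) := by
  refine result hF hι Mᵀ ⟨?_, hM.2.transpose⟩ K v ?_ d hd
  · rw [det_transpose]
    exact hM.1
  · have h1 := hX.transpose
    exact h1

end Pool.Agent.Results.MP_0af767_co.CoherentRows
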