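import Pool.Agent.Lib.MP_0af767_co.Ext

/-!
# MP_0af767_co: linear (2,q,q)-AONTs over fields of non-prime order are far from extendable ones

Let `F` be a field with `q` elements, `q` not a prime, and let `X` be a matrix with `q + 1` columns
and at least two rows all of whose `2 × 2` minors are non-zero. Then `rank X ≤ q - 2` (`rank_le`).
Hence a linear (2,q,q)-AONT differs from every matrix formed by rows and columns of `X` by a matrix
of rank at least two.
-/

set_option autoImplicit false

namespace Pool.Agent.Results.MP_0af767_co.ExtensionBarrier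

open Matrix Pool.MP_0af767_co

theorem result {F : Type*} [Field F] [Fintype F] (hF : ¬ (Fintype.card F).Prime)
    {ι : Type*} [Fintype ι] [DecidableEq ι] (hι : Fintype.card ι = Fintype.card F)
    (M : Matrix ι ι F) (hM : IsAONT M)
    {m n : Type*} [Fintype m] [Fintype n] (hm : 1 < Fintype.card m)
    (hn : Fintype.card n = Fintype.card F + 1) (X : Matrix m n F) (hX : TwoReg X)
    (r : ι → m) (c : ι → n) : 2 ≤ (M - X.submatrix r c).rank := by
  classical
  have h1 := rank_le hX hn hm hF
  have h2 := rank_sub_ge M (X.submatrix r c)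
  have h3 : (X.submatrix r c).rank ≤ X.rank := rank_submatrix_le X r c
  have h4 : M.rank = Fintype.card ι := rank_of_det_ne_zero hM.1
  omega

/-- the same with rows and columns exchanged -/
theorem result_transpose {F : Type*} [Field F] [Fintype F] (hF : ¬ (Fintype.card F).Prime)
    {ι : Type*} [Fintype ι] [DecidableEq ι] (hι : Fintype.card ι = Fintype.card F)
    (M : Matrix ι ι F) (hM : IsAONT M)
    {m n : Type*} [Fintype m] [Fintype n] (hn : 1 < Fintype.card n)
    (hm : Fintype.card m = Fintype.card F + 1) (X : Matrix m n F) (hX : TwoReg X)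
    (r : ι → m) (c : ι → n) : 2 ≤ (M - X.submatrix r c).rank := by
  have hM' : IsAONT Mᵀ := by
    refine ⟨?_, hM.2.transpose⟩
    rw [det_transpose]
    exact hM.1
  have h1 := result hF hι Mᵀ hM' hn hm Xᵀ hX.transpose c r
  have h2 : Mᵀ - Xᵀ.submatrix c r = (M - X.submatrix r c)ᵀ := rfl
  rwa [h2, rank_transpose] at h1

/-- no linear (2,q,q)-AONT is obtained from `X` by deleting rows and columns and changing one
entry -/
theorem one_entry {F : Type*} [Field F] [Fintype F] (hF : ¬ (Fintype.card F).Prime)
    {ι : Type*} [Fintype ι] [DecidableEq ι] (hι : Fintype.card ι = Fintype.card F)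
    (M : Matrix ι ι F) (hM : IsAONT M)
    {m n : Type*} [Fintype m] [Fintype n] (hm : 1 < Fintype.card m)
    (hn : Fintype.card n = Fintype.card F + 1) (X : Matrix m n F) (hX : TwoReg X)
    (r : ι → m) (c : ι → n) (i j : ι)
    (h : ∀ k l, (k, l) ≠ (i, j) → M k l = X (r k) (c l)) : False := by
  have h1 := result hF hι M hM hm hn X hX r c
  have h2 : M - X.submatrix r c =
      vecMulVec (Pi.single i (1 : F)) (Pi.single j (M i j - X (r i) (c j))) := by
    ext k l
    rw [vecMulVec_apply, Matrix.sub_apply, submatrix_apply]
    by_cases hk : k = i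
    · subst hk
      by_cases hl : l = j
      · subst hl
        simp
      · rw [h k l (by simp [hl])]
        simp [hl]
    · rw [h k l (by simp [hk])]
      simp [hk]
  rw [h2] at h1
  have h3 := rank_vecMulVec_le (Pi.single i (1 : F)) (Pi.single j (M i j - X (r i) (c j)))
  omega

end Pool.Agent.Results.MP_0af767_co.ExtensionBarrier
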