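import Pool.Agent.Lib.MP_0af767_co.Hollow

/-!
# MP_0af767_co: linear (2,q,q)-AONTs with zero diagonal, diagonally equivalent to their transpose

Such a matrix exists over the field with `q` elements only for `q = 2, 3, 5`. In particular no
symmetric and no skew-symmetric linear (2,q,q)-AONT with zero diagonal exists when `q` is not a
prime.
-/

set_option autoImplicit false

namespace Pool.Agent.Results.MP_0af767_co.HollowSymmetric

open Matrix Pool.MP_0af767_co

theorem result {F : Type*} [Field F] [Fintype F] {ι : Type*} [Fintype ι] [DecidableEq ι]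
    (hι : Fintype.card ι = Fintype.card F) (M : Matrix ι ι F) (hM : IsAONT M)
    (h0 : ∀ i, M i i = 0) (a b : ι → F) (hab : ∀ i j, M j i = a i * M i j * b j) :
    Fintype.card F = 2 ∨ Fintype.card F = 3 ∨ Fintype.card F = 5 := by
  classical
  exact hollow h0 hM.2 hι hab hM.1

/-- no symmetric linear (2,q,q)-AONT with zero diagonal for non-prime `q` -/
theorem symm {F : Type*} [Field F] [Fintype F] (hF : ¬ (Fintype.card F).Prime)
    {ι : Type*} [Fintype ι] [DecidableEq ι]
    (hι : Fintype.card ι = Fintype.card F) (M : Matrix ι ι F) (hM : IsAONT M)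
    (h0 : ∀ i, M i i = 0) : Mᵀ ≠ M := by
  intro h
  have h1 := result hι M hM h0 (fun _ => 1) (fun _ => 1) (fun i j => by
    have h2 := congrFun (congrFun h i) j
    rw [transpose_apply] at h2
    rw [h2]
    ring)
  rcases h1 with h1 | h1 | h1 <;> rw [h1] at hF <;> exact hF (by norm_num)

/-- no skew-symmetric linear (2,q,q)-AONT with zero diagonal for non-prime `q` -/
theorem skew {F : Type*} [Field F] [Fintype F] (hF : ¬ (Fintype.card F).Prime)
    {ι : Type*} [Fintype ι] [DecidableEq ι]
    (hι : Fintype.card ι = Fintype.card F) (M : Matrix ι ι F) (hM : IsAONT M)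
    (h0 : ∀ i, M i i = 0) : Mᵀ ≠ -M := by
  intro h
  have h1 := result hι M hM h0 (fun _ => -1) (fun _ => 1) (fun i j => by
    have h2 := congrFun (congrFun h i) j
    rw [transpose_apply, neg_apply] at h2
    rw [h2]
    ring)
  rcases h1 with h1 | h1 | h1 <;> rw [h1] at hF <;> exact hF (by norm_num)

end Pool.Agent.Results.MP_0af767_co.HollowSymmetric
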